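import Mathlib
import Pool.Agent.H98.SL1

namespace Pool.Agent.Results.MP_f0da7f_al.Count

open Cardinal Set Classical Pool.Agent.H98.SL MvPolynomial

universe u

variable {F V : Type u} [Field F] [AddCommGroup V] [Module F V]

/-- Ideals of the lattice of subspaces. -/
def IsIdeal (I : Set (Submodule F V)) : Prop :=
  ⊥ ∈ I ∧ ⊤ ∉ I ∧ (∀ U ∈ I, ∀ W, W ≤ U → W ∈ I) ∧ ∀ U ∈ I, ∀ W ∈ I, U ⊔ W ∈ I

/-- Filters on the lattice of subspaces. -/
def IsFilter (S : Set (Submodule F V)) : Prop :=
  ⊤ ∈ S ∧ ⊥ ∉ S ∧ (∀ U ∈ S, ∀ W, U ≤ W → W ∈ S) ∧ ∀ U ∈ S, ∀ W ∈ S, U ⊓ W ∈ S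

variable {ι : Type u} [Infinite ι]

lemma card_sub (b : Module.Basis ι F V) : #(Submodule F V) ≤ #F ^ #ι := by
  have h : ∀ U : Submodule F V, ∃ f : ι → V, Submodule.span F (range f) = U := fun U => by
    let c := Module.Basis.ofVectorSpace F U
    obtain ⟨e⟩ : Nonempty (Module.Basis.ofVectorSpaceIndex F U ↪ ι) := by
      rw [← Cardinal.le_def, c.mk_eq_rank'', b.mk_eq_rank'']; exact U.rank_le
    refine ⟨Function.extend e (fun j => c j) 0, le_antisymm (Submodule.span_le.2 ?_) ?_⟩
    · rintro _ ⟨i, rfl⟩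
      by_cases hi : ∃ j, e j = i
      · obtain ⟨j, rfl⟩ := hi
        simp [e.injective.extend_apply]
      · simp [Function.extend_apply' _ _ _ hi]
    · conv_lhs => rw [← U.map_subtype_top, ← c.span_eq, Submodule.map_span]
      refine Submodule.span_mono ?_
      rintro _ ⟨_, ⟨j, rfl⟩, rfl⟩
      exact ⟨e j, by simp [e.injective.extend_apply]⟩
  calc _ ≤ #(ι → V) := mk_le_of_surjective (f := fun f : ι → V => Submodule.span F (range f)) h
    _ ≤ (#F ^ #ι) ^ #ι := by
      rw [← power_def, power_def F]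
      exact power_le_power_right (mk_le_of_injective (f := fun v => (b.repr v : ι → F))
        (DFunLike.coe_injective.comp b.repr.injective))
    _ = _ := by rw [← power_mul, mul_eq_self (aleph0_le_mk ι)]

lemma fil_upper (b : Module.Basis ι F V) :
    #{S : Set (Submodule F V) // Maximal IsFil S} ≤ #F ^ ((2 : Cardinal) ^ #ι) := by
  let E : Finset ι → Submodule F V := fun s => Submodule.span F (b '' s)
  let r : Finset ι → Submodule F V → Submodule F V → Prop := fun s U W =>
    U.comap (E s).subtype ⊓ W.comap (E s).subtype ≠ ⊥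
  have hr : ∀ U W, U ⊓ W ≠ ⊥ ↔ ∃ s, r s U W := fun U W => by
    simp only [r, Submodule.ne_bot_iff]
    exact ⟨fun ⟨x, h1, h2⟩ => ⟨_, ⟨x, b.mem_span_repr_support x⟩, h1, by simpa using h2⟩,
      fun ⟨_, x, h1, h2⟩ => ⟨x, h1, by simpa using h2⟩⟩
  have : ∀ S : {S : Set (Submodule F V) // Maximal IsFil S}, ∃ e : Tr (Finset ι) → Submodule F V,
      ∀ W, W ∈ S.1 ↔ ∀ w, e w ⊓ W ≠ ⊥ := fun S => by
    haveI : Nonempty S.1 := ⟨⟨⊤, S.2.prop.1⟩⟩
    obtain ⟨e, he⟩ := dense (fun s (U : S.1) W => r s U W) fun s D => by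
      haveI : FiniteDimensional F (E s) :=
        FiniteDimensional.span_of_finite F (s.finite_toSet.image _)
      obtain ⟨T, h1, h2, h3⟩ := noeth (fun U : S.1 => U.1.comap (E s).subtype) D
      exact ⟨T, h1, h2, fun W => h3 _⟩
    refine ⟨fun w => e w, fun W => ⟨fun h w => (mem_iff S.2 W).1 h _ (e w).2, fun h => ?_⟩⟩
    refine (mem_iff S.2 W).2 fun U hU => (hr _ _).2 (by_contra fun h1 => ?_)
    obtain ⟨w, hw⟩ := he W ⟨⟨U, hU⟩, not_exists.1 h1⟩
    exact not_exists.2 hw ((hr _ _).1 (h w))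
  choose e he using this
  calc _ ≤ #(Tr (Finset ι) → Submodule F V) := mk_le_of_injective (f := e) fun S T h =>
        Subtype.ext (Set.ext fun W => by rw [he, he, h])
    _ ≤ (#F ^ #ι) ^ ((2 : Cardinal) ^ #ι) := by
      rw [← power_def]
      exact (power_le_power_right (card_sub b)).trans (power_le_power_left
        (power_ne_zero _ (mk_ne_zero F)) (card_Tr.trans_eq (by simp)))
    _ = _ := by
      rw [← power_mul, mul_eq_right ((aleph0_le_mk ι).trans (cantor _).le) (cantor _).le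
        (mk_ne_zero ι)]

lemma fil_lower (b : Module.Basis ι F V) :
    #F ^ ((2 : Cardinal) ^ #ι) ≤ #{S : Set (Submodule F V) // Maximal IsFil S} := by
  obtain ⟨e⟩ : Nonempty ((Finset ι × Finset (Finset ι) →₀ F) ≃ₗ[F] V) :=
    nonempty_linearEquiv_of_rank_eq (by simp [← b.mk_eq_rank'', mul_eq_self (aleph0_le_mk ι)])
  let U : Set ι → F → Submodule F (Finset ι × Finset (Finset ι) →₀ F) := fun α a =>
    { carrier := {v | ∀ s x, s.filter (· ∈ α) ∉ x →
        v (s, insert (s.filter (· ∈ α)) x) = a * v (s, x)}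
      add_mem' := fun h1 h2 s x h => by simp [h1 s x h, h2 s x h, mul_add]
      zero_mem' := by simp
      smul_mem' := fun c v h1 s x h => by simp [h1 s x h, mul_left_comm] }
  rw [← mk_set]
  refine lower (Submodule.orderIsoMapComap e) U (fun α a c h => ?_) fun h T => ?_
  · refine (Submodule.eq_bot_iff _).2 fun v ⟨h1, h2⟩ => Finsupp.ext fun ⟨s, x⟩ => ?_
    have h3 : ∀ x, s.filter (· ∈ α) ∉ x → v (s, x) = 0 := fun x hx =>
      (mul_eq_mul_right_iff.1 ((h1 s x hx).symm.trans (h2 s x hx))).resolve_left h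
    by_cases hx : s.filter (· ∈ α) ∈ x
    · rw [← Finset.insert_erase hx, h1 s _ (Finset.notMem_erase _ _),
        h3 _ (Finset.notMem_erase _ _), mul_zero]; rfl
    · exact h3 x hx
  · obtain ⟨s, hs⟩ : ∃ s : Finset ι, Function.Injective fun α : T => s.filter (· ∈ α.1) := by
      have : ∀ p : T × T, ∃ i, p.1 ≠ p.2 → ¬ (i ∈ p.1.1 ↔ i ∈ p.2.1) := fun p => by
        by_contra! h
        exact (h (Classical.arbitrary ι)).1 (Subtype.ext (Set.ext fun i => (h i).2))
      choose i hi using this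
      refine ⟨Finset.univ.image i, fun α β h => by_contra fun e => hi (α, β) e ?_⟩
      simpa using Finset.ext_iff.1 h (i (α, β))
    let g : Finset ι → F := Function.extend (fun α : T => s.filter (· ∈ α.1)) (fun α => h α) 0
    let v : Finset ι × Finset (Finset ι) →₀ F := Finsupp.onFinset ({s} ×ˢ s.powerset.powerset)
      (fun j => if j.1 = s ∧ j.2 ⊆ s.powerset then ∏ t ∈ j.2, g t else 0) fun j hj => by
        rw [Finset.mem_product]; simpa using (ite_ne_right_iff.1 hj).1
    refine (Submodule.ne_bot_iff _).2 ⟨v, Submodule.mem_finsetInf.2 fun α hα s' x hx => ?_,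
      fun e => by simpa [v] using DFunLike.congr_fun e (s, ∅)⟩
    by_cases e : s' = s
    · subst e
      have : g (s'.filter (· ∈ α)) = h α := hs.extend_apply _ _ ⟨α, hα⟩
      simp [v, Finset.insert_subset_iff, Finset.prod_insert hx, this]
    · simp [v, e]

lemma interp (h : (ι → F) → F) (T : Finset (ι → F)) :
    ∃ P : MvPolynomial ι F, ∀ i ∈ T, eval i P = h i := by
  induction T using Finset.induction_on with
  | empty => simp
  | insert a T ha ih =>
    obtain ⟨P, hP⟩ := ih
    choose n hn using fun i : T => Function.ne_iff.1 (ne_of_mem_of_not_mem i.2 ha).symm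
    let Q : MvPolynomial ι F := ∏ i : T, (X (n i) - C (i.1 (n i)))
    have h1 : eval a Q ≠ 0 := by simpa [Q, Finset.prod_eq_zero_iff, sub_eq_zero] using hn
    refine ⟨P + C ((h a - eval a P) / eval a Q) * Q, 
      (Finset.forall_mem_insert _ _ _).2 ⟨?_, fun i hi => ?_⟩⟩
    · simp [h1]
    · have : eval i Q = 0 := by
        rw [map_prod]; exact Finset.prod_eq_zero (Finset.mem_univ ⟨i, hi⟩) (by simp)
      simp [this, hP i hi]

lemma id_lower (b : Module.Basis ι F V) :
    2 ^ (#F ^ #ι) ≤ #{S : Set (Submodule F V)ᵒᵈ // Maximal IsFil S} := by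
  obtain ⟨e⟩ : Nonempty ((Finset (ι →₀ ℕ) →₀ MvPolynomial (ι →₀ ℕ) F) ≃ₗ[F] V) :=
    nonempty_linearEquiv_of_rank_eq (by
      simp [← b.mk_eq_rank'', MvPolynomial.rank_eq, mul_eq_self (aleph0_le_mk ι)])
  let q : Finset (ι →₀ ℕ) → (ι → F) → MvPolynomial (ι →₀ ℕ) F := fun K i =>
    ∑ m ∈ K, X m * C (∏ n ∈ m.support, i n ^ m n)
  let A : (ι → F) → ULift.{u} Bool → Submodule F (Finset (ι →₀ ℕ) →₀ MvPolynomial (ι →₀ ℕ) F) :=
    fun i a =>
    { carrier := {v | ∀ K c, eval c (q K i) = (if a.down then 1 else 0) → eval c (v K) = 0}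
      add_mem' := fun h1 h2 s x h => by simp [h1 s x h, h2 s x h]
      zero_mem' := by simp
      smul_mem' := fun c v h1 s x h => by simp [h1 s x h, smul_eq_C_mul] }
  have key : ∀ i, A i ⟨false⟩ ⊔ A i ⟨true⟩ = ⊤ := fun i => eq_top_iff.2 fun v _ => by
    let w := Finsupp.onFinset v.support (fun K => q K i * v K) fun K h => by
      simpa using right_ne_zero_of_mul h
    exact Submodule.mem_sup.2 ⟨w, fun K c h => by simp [w, h], v - w,
      fun K c h => by simp [w, h], by simp⟩
  have := lower (Submodule.orderIsoMapComap e).dual (fun i a => OrderDual.toDual (A i a))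
    (fun i a c h => ?_) fun h T => ?_
  · simpa [← power_def] using this
  · obtain ⟨_ | _⟩ := a <;> obtain ⟨_ | _⟩ := c
    exacts [absurd rfl h, key i, (sup_comm (A i _) (A i _)).trans (key i), absurd rfl h]
  · obtain ⟨P, hP⟩ := interp (fun i => if (h i).down then (1 : F) else 0) T
    let l := (aeval (R := F) fun m => P.coeff m).toLinearMap ∘ₗ Finsupp.lapply P.support
    refine ne_top_of_le_ne_top (b := LinearMap.ker l) (fun e => ?_)
      (Finset.sup_le (f := fun i => A i (h i)) fun i hi v hv => hv _ _ ?_)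
    · simpa [l] using e.ge (Submodule.mem_top (x := Finsupp.single P.support 1))
    · rw [← hP i hi, eval_eq i]
      simp [q]

theorem result (F V : Type u) [Field F] [AddCommGroup V] [Module F V]
    (hκ : ℵ₀ ≤ Module.rank F V) :
    #{I : Set (Submodule F V) // Maximal IsIdeal I} = 2 ^ (#F ^ Module.rank F V) ∧
    #{S : Set (Submodule F V) // Maximal IsFilter S} = #F ^ ((2 : Cardinal) ^ Module.rank F V) := by
  let b := Module.Basis.ofVectorSpace F V
  rw [← b.mk_eq_rank''] at hκ ⊢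
  haveI := aleph0_le_mk_iff.1 hκ
  refine ⟨le_antisymm ((mk_subtype_le _).trans ?_) (id_lower b), (fil_upper b).antisymm (fil_lower b)⟩
  rw [mk_set]
  exact power_le_power_left two_ne_zero (card_sub b)

end Pool.Agent.Results.MP_f0da7f_al.Count
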